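import Pool.Agent.TH7.PG.Core
import Pool.Agent.TH7.PG.L2
import Pool.Agent.W27.SD.Gap

/-!
# Double character sums over pairs of sets nearly invariant under sets of bounded doubling

The bilinear form over translates of two generalized progressions (`TH7.PG.core`), Freiman's theorem in the
field with `p` elements (`W27.SD.gap_zmod`) and Ruzsa's covering lemma.
-/

set_option autoImplicit false
set_option linter.unusedSectionVars false

open Finset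
open scoped Pointwise

namespace Pool.Agent.N397.PQ

open Pool.Agent.TH7.PG Pool.Agent.W27.SD

/-- the trivial system: everything -/
noncomputable def topSys (p D : ℕ) [NeZero p] : Sys p D where
  S := fun _ => univ
  zero_mem := fun _ _ => mem_univ _
  neg_mem := fun _ _ _ => mem_univ _
  add_mem := fun _ _ _ _ _ _ => mem_univ _
  mono := fun _ _ _ => subset_rfl
  cover := fun m _ _ => ⟨{0}, by simpa using Nat.one_le_pow _ _ (by omega), fun _ _ =>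
    ⟨0, mem_singleton_self _, mem_univ _⟩⟩

/-- a set of bounded doubling is covered by a bounded number of translates of a system of its size -/
theorem sys_cover {K : ℝ} (hK1 : 1 ≤ K) : ∃ (C : ℝ) (D : ℕ), 1 ≤ C ∧
    ∀ (p : ℕ) [Fact p.Prime] (P : Finset (ZMod p)), P.Nonempty → ((P + P).card : ℝ) ≤ K * P.card →
      ∃ (S : Sys p D) (T : Finset (ZMod p)), (T.card : ℝ) ≤ C ∧ ((S.S 1).card : ℝ) ≤ C * P.card ∧
        ∀ a ∈ P, ∃ t ∈ T, a - t ∈ S.S 1 := by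
  classical
  refine ⟨CK K, ⌊300 * Real.log (2 * K)⌋₊, CK_ge_one hK1, ?_⟩
  intro p _ P hP hPK
  have hC := CK_ge_one hK1
  have hP0 : (0 : ℝ) < P.card := by exact_mod_cast hP.card_pos
  rcases gap_zmod hP hPK hK1 with h | ⟨k, v, L, T, hk, -, hvol, hT, hcov⟩
  · refine ⟨topSys p _, {0}, by simpa using hC, ?_, fun a _ => ⟨0, mem_singleton_self _, mem_univ _⟩⟩
    have e : ((topSys p ⌊300 * Real.log (2 * K)⌋₊).S 1).card = p := by
      show (univ : Finset (ZMod p)).card = p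
      rw [card_univ, ZMod.card]
    rw [e]
    exact h
  · refine ⟨boxSys _ (Nat.le_floor hk) v L, T, hT, ?_, ?_⟩
    · have h1 : ((boxSys _ (Nat.le_floor hk) v L).S 1).card ≤ P.card := (box_card v L).trans hvol
      have h2 : (((boxSys _ (Nat.le_floor hk) v L).S 1).card : ℝ) ≤ P.card := by exact_mod_cast h1
      nlinarith
    · intro a ha
      obtain ⟨t, ht, c, hc, e⟩ := hcov a ha
      refine ⟨t, ht, ?_⟩
      show a - t ∈ boxS v L 1
      rw [mem_boxS]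
      refine ⟨c, fun i => ?_, ?_⟩
      · rw [one_mul]
        exact_mod_cast hc i
      · rw [e, lf]
        simp [zsmul_eq_mul]

/-- covering of a set nearly invariant under `P` -/
theorem inv_cover {p D : ℕ} [Fact p.Prime] {C : ℝ} (hC : 1 ≤ C) (A P T : Finset (ZMod p)) (S : Sys p D)
    (hP : P.Nonempty) (hT : (T.card : ℝ) ≤ C) (hS : ((S.S 1).card : ℝ) ≤ C * P.card)
    (hcov : ∀ a ∈ P, ∃ t ∈ T, a - t ∈ S.S 1) :
    ∃ G : Finset (ZMod p), (G.card : ℝ) * (S.S 1).card ≤ C ^ 3 * 5 ^ D * (A + P).card ∧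
      ∀ a ∈ A, ∃ x ∈ G, a - x ∈ S.S 1 := by
  classical
  have hP0 : (0 : ℝ) < P.card := by exact_mod_cast hP.card_pos
  obtain ⟨F, hFA, hFcard, hFcov⟩ := Finset.ruzsa_covering_add (A := A) (B := P)
    (K := ((A + P).card : ℝ) / P.card) hP (by rw [div_mul_cancel₀ _ hP0.ne'])
  obtain ⟨F', hF', hcov'⟩ := S.cover 2 1 zero_le_one
  refine ⟨F + (T - T) + F', ?_, ?_⟩
  · have h1 : ((F + (T - T) + F').card : ℝ) ≤ F.card * (T.card * T.card) * F'.card := by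
      have a1 : (F + (T - T) + F').card ≤ (F + (T - T)).card * F'.card := Finset.card_add_le
      have a2 : (F + (T - T)).card ≤ F.card * (T - T).card := Finset.card_add_le
      have a3 : (T - T).card ≤ T.card * T.card := Finset.card_sub_le
      have a4 : (F + (T - T) + F').card ≤ F.card * (T.card * T.card) * F'.card :=
        a1.trans (Nat.mul_le_mul_right _ (a2.trans (Nat.mul_le_mul_left _ a3)))
      exact_mod_cast a4
    have h2 : (F'.card : ℝ) ≤ 5 ^ D := by exact_mod_cast hF'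
    have h3 : (F.card : ℝ) * P.card ≤ (A + P).card := by rwa [le_div_iff₀ hP0] at hFcard
    have hT0 : (0 : ℝ) ≤ T.card := Nat.cast_nonneg _
    have hF0 : (0 : ℝ) ≤ F.card := Nat.cast_nonneg _
    calc ((F + (T - T) + F').card : ℝ) * (S.S 1).card
        ≤ (F.card * (T.card * T.card) * F'.card) * (S.S 1).card :=
          mul_le_mul_of_nonneg_right h1 (Nat.cast_nonneg _)
      _ ≤ (F.card * (C * C) * 5 ^ D) * (C * P.card) := by
          apply mul_le_mul _ hS (Nat.cast_nonneg _) (by positivity)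
          apply mul_le_mul _ h2 (Nat.cast_nonneg _) (by positivity)
          apply mul_le_mul_of_nonneg_left _ hF0
          exact mul_le_mul hT hT hT0 (by linarith)
      _ = C ^ 3 * 5 ^ D * (F.card * P.card) := by ring
      _ ≤ _ := mul_le_mul_of_nonneg_left h3 (by positivity)
  · intro a ha
    have h1 := hFcov ha
    rw [Finset.mem_add] at h1
    obtain ⟨f, hf, d, hd, e⟩ := h1
    rw [Finset.mem_sub] at hd
    obtain ⟨b, hb, b', hb', e'⟩ := hd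
    obtain ⟨t, ht, hbt⟩ := hcov b hb
    obtain ⟨t', ht', hbt'⟩ := hcov b' hb'
    have h2 : (b - t) + -(b' - t') ∈ S.S (1 + 1) := S.add_mem 1 1 _ _ hbt (S.neg_mem 1 _ hbt')
    have h3 : (b - t) + -(b' - t') ∈ S.S ((2 : ℕ) * 1) := by
      rw [show ((2 : ℕ) : ℝ) * 1 = 1 + 1 by norm_num]
      exact h2
    obtain ⟨u, hu, hu2⟩ := hcov' _ h3
    refine ⟨f + (t - t') + u, Finset.add_mem_add (Finset.add_mem_add hf (Finset.sub_mem_sub ht ht')) hu, ?_⟩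
    have e2 : a - (f + (t - t') + u) = (b - t) + -(b' - t') - u := by
      rw [← e, ← e']
      ring
    rw [e2]
    exact hu2

/-- summation over the pieces -/
theorem pieces {p : ℕ} [Fact p.Prime] (A B G H : Finset (ZMod p)) (u w : ZMod p → ZMod p)
    (hu : ∀ a ∈ A, u a ∈ G) (hw : ∀ b ∈ B, w b ∈ H) (K : ZMod p → ZMod p → ℂ) (Θ : ℝ) (hΘ : 0 ≤ Θ)
    (f g : ZMod p → ℂ)
    (h : ∀ x ∈ G, ∀ y ∈ H, ‖∑ a ∈ A.filter fun a => u a = x, ∑ b ∈ B.filter fun b => w b = y,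
        f a * g b * K a b‖ ≤
      Θ * (Real.sqrt (∑ a ∈ A.filter fun a => u a = x, ‖f a‖ ^ 2) *
        Real.sqrt (∑ b ∈ B.filter fun b => w b = y, ‖g b‖ ^ 2))) :
    ‖∑ a ∈ A, ∑ b ∈ B, f a * g b * K a b‖ ≤ Θ * (Real.sqrt G.card * Real.sqrt H.card) *
      (Real.sqrt (∑ a ∈ A, ‖f a‖ ^ 2) * Real.sqrt (∑ b ∈ B, ‖g b‖ ^ 2)) := by
  classical
  set φ : ZMod p → ℝ := fun x => Real.sqrt (∑ a ∈ A.filter fun a => u a = x, ‖f a‖ ^ 2) with hφ
  set ψ : ZMod p → ℝ := fun y => Real.sqrt (∑ b ∈ B.filter fun b => w b = y, ‖g b‖ ^ 2) with hψ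
  have e1 : ∑ a ∈ A, ∑ b ∈ B, f a * g b * K a b = ∑ x ∈ G, ∑ y ∈ H,
      ∑ a ∈ A.filter fun a => u a = x, ∑ b ∈ B.filter fun b => w b = y, f a * g b * K a b := by
    rw [← Finset.sum_fiberwise_of_maps_to hu]
    refine Finset.sum_congr rfl fun x _ => ?_
    rw [Finset.sum_comm (s := H)]
    refine Finset.sum_congr rfl fun a _ => ?_
    rw [← Finset.sum_fiberwise_of_maps_to hw]
  have h2 : ‖∑ a ∈ A, ∑ b ∈ B, f a * g b * K a b‖ ≤ ∑ x ∈ G, ∑ y ∈ H, Θ * (φ x * ψ y) := by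
    rw [e1]
    refine (norm_sum_le _ _).trans (Finset.sum_le_sum fun x hx => ?_)
    exact (norm_sum_le _ _).trans (Finset.sum_le_sum fun y hy => h x hx y hy)
  have h3 : ∑ x ∈ G, ∑ y ∈ H, Θ * (φ x * ψ y) = Θ * ((∑ x ∈ G, φ x) * ∑ y ∈ H, ψ y) := by
    rw [Finset.sum_mul_sum, Finset.mul_sum]
    refine Finset.sum_congr rfl fun x _ => ?_
    rw [Finset.mul_sum]
  have h4 : ∑ x ∈ G, φ x ≤ Real.sqrt G.card * Real.sqrt (∑ a ∈ A, ‖f a‖ ^ 2) := by
    rw [← Real.sqrt_mul (Nat.cast_nonneg _)]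
    refine Real.le_sqrt_of_sq_le ?_
    have h := Finset.sum_mul_sq_le_sq_mul_sq G (fun _ => (1 : ℝ)) φ
    simp only [one_mul, one_pow, Finset.sum_const, nsmul_eq_mul, mul_one] at h
    refine h.trans (le_of_eq ?_)
    congr 1
    have : ∀ x, φ x ^ 2 = ∑ a ∈ A.filter fun a => u a = x, ‖f a‖ ^ 2 := fun x =>
      Real.sq_sqrt (Finset.sum_nonneg fun a _ => by positivity)
    simp only [this]
    exact Finset.sum_fiberwise_of_maps_to hu _
  have h5 : ∑ y ∈ H, ψ y ≤ Real.sqrt H.card * Real.sqrt (∑ b ∈ B, ‖g b‖ ^ 2) := by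
    rw [← Real.sqrt_mul (Nat.cast_nonneg _)]
    refine Real.le_sqrt_of_sq_le ?_
    have h := Finset.sum_mul_sq_le_sq_mul_sq H (fun _ => (1 : ℝ)) ψ
    simp only [one_mul, one_pow, Finset.sum_const, nsmul_eq_mul, mul_one] at h
    refine h.trans (le_of_eq ?_)
    congr 1
    have : ∀ x, ψ x ^ 2 = ∑ b ∈ B.filter fun b => w b = x, ‖g b‖ ^ 2 := fun x =>
      Real.sq_sqrt (Finset.sum_nonneg fun a _ => by positivity)
    simp only [this]
    exact Finset.sum_fiberwise_of_maps_to hw _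
  have h6 : 0 ≤ ∑ y ∈ H, ψ y := Finset.sum_nonneg fun _ _ => Real.sqrt_nonneg _
  calc _ ≤ Θ * ((∑ x ∈ G, φ x) * ∑ y ∈ H, ψ y) := h2.trans (le_of_eq h3)
    _ ≤ Θ * ((Real.sqrt G.card * Real.sqrt (∑ a ∈ A, ‖f a‖ ^ 2)) *
        (Real.sqrt H.card * Real.sqrt (∑ b ∈ B, ‖g b‖ ^ 2))) := by
          apply mul_le_mul_of_nonneg_left _ hΘ
          exact mul_le_mul h4 h5 h6 (by positivity)
    _ = _ := by ring

/-- the local forms, square integrable weights -/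
theorem local_form {p D : ℕ} [Fact p.Prime] (χ : DirichletCharacter ℂ p) (S S' : Sys p D) (η : ℝ) (hη : 0 < η)
    (x y : ZMod p)
    (hcore : ∀ (A B : Finset (ZMod p)), (∀ a ∈ A, a - x ∈ S.S 1) → (∀ b ∈ B, b - y ∈ S'.S 1) →
      ∀ f g : ZMod p → ℂ, (∀ x, ‖f x‖ ≤ 1) → (∀ x, ‖g x‖ ≤ 1) →
        ‖∑ a ∈ A, ∑ b ∈ B, f a * g b * χ (a + b)‖ ≤
          (p : ℝ) ^ (-η) * (((S.S 1).card : ℝ) * (S'.S 1).card))
    (A B : Finset (ZMod p)) (hA : ∀ a ∈ A, a - x ∈ S.S 1) (hB : ∀ b ∈ B, b - y ∈ S'.S 1) (f g : ZMod p → ℂ) :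
    ‖∑ a ∈ A, ∑ b ∈ B, f a * g b * χ (a + b)‖ ≤
      (3 * (p : ℝ) ^ (-(η / 4)) * (Real.sqrt (S.S 1).card * Real.sqrt (S'.S 1).card)) *
        (Real.sqrt (∑ a ∈ A, ‖f a‖ ^ 2) * Real.sqrt (∑ b ∈ B, ‖g b‖ ^ 2)) := by
  classical
  have hp1 : (1 : ℝ) ≤ p := by exact_mod_cast (Fact.out : p.Prime).one_lt.le
  have hp0 : (0 : ℝ) < p := by linarith
  set X : Finset (ZMod p) := (S.S 1).image (fun s => x + s) with hX
  set Y : Finset (ZMod p) := (S'.S 1).image (fun s => y + s) with hY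
  have hXc : X.card = (S.S 1).card := card_image_of_injective _ (add_right_injective x)
  have hYc : Y.card = (S'.S 1).card := card_image_of_injective _ (add_right_injective y)
  have hAX : A ⊆ X := fun a ha => mem_image.2 ⟨a - x, hA a ha, by ring⟩
  have hBY : B ⊆ Y := fun b hb => mem_image.2 ⟨b - y, hB b hb, by ring⟩
  have hX1 : ∀ a ∈ X, a - x ∈ S.S 1 := by
    intro a ha
    obtain ⟨s, hs, rfl⟩ := mem_image.1 ha
    rwa [add_sub_cancel_left]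
  have hY1 : ∀ b ∈ Y, b - y ∈ S'.S 1 := by
    intro b hb
    obtain ⟨s, hs, rfl⟩ := mem_image.1 hb
    rwa [add_sub_cancel_left]
  have hlin := linf_to_l2 X Y (fun a b => χ (a + b)) (fun a b => DirichletCharacter.norm_le_one χ _)
    ((p : ℝ) ^ (-η)) ((p : ℝ) ^ (η / 4)) (by positivity) (by
      intro f g hf hg
      rw [hXc, hYc]
      exact hcore X Y hX1 hY1 f g hf hg)
    (fun a => if a ∈ A then f a else 0) (fun b => if b ∈ B then g b else 0)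
  have e1 : ∑ a ∈ X, ∑ b ∈ Y, (if a ∈ A then f a else 0) * (if b ∈ B then g b else 0) * χ (a + b) =
      ∑ a ∈ A, ∑ b ∈ B, f a * g b * χ (a + b) := by
    rw [← Finset.sum_subset hAX (fun a _ ha => by simp [if_neg ha])]
    refine Finset.sum_congr rfl fun a ha => ?_
    rw [← Finset.sum_subset hBY (fun b _ hb => by simp [if_neg hb])]
    refine Finset.sum_congr rfl fun b hb => ?_
    rw [if_pos ha, if_pos hb]
  have e2 : ∑ a ∈ X, ‖(if a ∈ A then f a else 0)‖ ^ 2 = ∑ a ∈ A, ‖f a‖ ^ 2 := by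
    rw [← Finset.sum_subset hAX (fun a _ ha => by simp [if_neg ha])]
    exact Finset.sum_congr rfl fun a ha => by rw [if_pos ha]
  have e3 : ∑ b ∈ Y, ‖(if b ∈ B then g b else 0)‖ ^ 2 = ∑ b ∈ B, ‖g b‖ ^ 2 := by
    rw [← Finset.sum_subset hBY (fun b _ hb => by simp [if_neg hb])]
    exact Finset.sum_congr rfl fun b hb => by rw [if_pos hb]
  rw [e1, e2, e3, hXc, hYc] at hlin
  refine hlin.trans ?_
  have h1 : ((p : ℝ) ^ (η / 4)) ^ 2 * (p : ℝ) ^ (-η) + 2 / (p : ℝ) ^ (η / 4) ≤ 3 * (p : ℝ) ^ (-(η / 4)) := by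
    have a1 : ((p : ℝ) ^ (η / 4)) ^ 2 * (p : ℝ) ^ (-η) = (p : ℝ) ^ (-(η / 2)) := by
      rw [← Real.rpow_natCast, ← Real.rpow_mul hp0.le, ← Real.rpow_add hp0]
      congr 1
      push_cast
      ring
    have a2 : 2 / (p : ℝ) ^ (η / 4) = 2 * (p : ℝ) ^ (-(η / 4)) := by
      rw [Real.rpow_neg hp0.le, div_eq_mul_inv]
    have a3 : (p : ℝ) ^ (-(η / 2)) ≤ (p : ℝ) ^ (-(η / 4)) :=
      Real.rpow_le_rpow_of_exponent_le hp1 (by linarith)
    rw [a1, a2]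
    linarith
  rw [mul_assoc (3 * (p : ℝ) ^ (-(η / 4)))]
  exact mul_le_mul_of_nonneg_right h1 (by positivity)

theorem core_all (ε : ℝ) (hε : 0 < ε) (hε1 : ε ≤ 1) (D : ℕ) : ∃ η : ℝ, 0 < η ∧ ∃ p₀ : ℕ,
    ∀ (p : ℕ) [Fact p.Prime], p₀ ≤ p → ∀ (χ : DirichletCharacter ℂ p), χ ≠ 1 →
    ∀ (S S' : Sys p D), (p : ℝ) ^ (ε / 2) ≤ (S.S 1).card → (p : ℝ) ^ (ε / 2) ≤ (S'.S 1).card →
      (p : ℝ) ^ (1 / 2 + ε / 2) ≤ ((S.S 1).card : ℝ) * (S'.S 1).card →
      ∀ (x y : ZMod p) (A B : Finset (ZMod p)), (∀ a ∈ A, a - x ∈ S.S 1) → (∀ b ∈ B, b - y ∈ S'.S 1) →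
      ∀ f g : ZMod p → ℂ, ‖∑ a ∈ A, ∑ b ∈ B, f a * g b * χ (a + b)‖ ≤
      (3 * (p : ℝ) ^ (-(η / 4)) * (Real.sqrt (S.S 1).card * Real.sqrt (S'.S 1).card)) *
        (Real.sqrt (∑ a ∈ A, ‖f a‖ ^ 2) * Real.sqrt (∑ b ∈ B, ‖g b‖ ^ 2)) := by
  obtain ⟨η, hη, p₀, h⟩ := core ε hε hε1 D
  refine ⟨η, hη, p₀, ?_⟩
  intro p _ hp χ hχ S S' h1 h2 h3 x y A B hA hB f g
  exact local_form χ S S' η hη x y (fun A B hA hB f g hf hg =>
    h p hp χ hχ S S' x y A B hA hB h1 h2 h3 f g hf hg) A B hA hB f g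

/-- **the main theorem** -/
theorem main (ε K : ℝ) (hε : 0 < ε) : ∃ τ : ℝ, 0 < τ ∧ ∃ p₀ : ℕ, ∀ (p : ℕ) [Fact p.Prime], p₀ ≤ p →
    ∀ χ : DirichletCharacter ℂ p, χ ≠ 1 → ∀ A B P Q : Finset (ZMod p),
      (p : ℝ) ^ ε ≤ P.card → (p : ℝ) ^ ε ≤ Q.card → (p : ℝ) ^ (1 / 2 + ε) ≤ (P.card : ℝ) * Q.card →
      ((P + P).card : ℝ) ≤ K * P.card → ((Q + Q).card : ℝ) ≤ K * Q.card →
      ((A + P).card : ℝ) ≤ (p : ℝ) ^ τ * A.card → ((B + Q).card : ℝ) ≤ (p : ℝ) ^ τ * B.card →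
      ∀ f g : ZMod p → ℂ, ‖∑ a ∈ A, ∑ b ∈ B, f a * g b * χ (a + b)‖ ≤ (p : ℝ) ^ (-(2 * τ)) *
        ((Real.sqrt A.card * Real.sqrt B.card) *
          (Real.sqrt (∑ a ∈ A, ‖f a‖ ^ 2) * Real.sqrt (∑ b ∈ B, ‖g b‖ ^ 2))) := by
  classical
  obtain ⟨C, D, hC, hsys⟩ := sys_cover (K := max K 1) (le_max_right _ _)
  obtain ⟨ε', hε'⟩ : ∃ ε' : ℝ, ε' = min ε 1 := ⟨_, rfl⟩
  have hε'0 : 0 < ε' := by rw [hε']; exact lt_min hε one_pos
  have hε'1 : ε' ≤ 1 := by rw [hε']; exact min_le_right _ _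
  have hε'ε : ε' ≤ ε := by rw [hε']; exact min_le_left _ _
  obtain ⟨η, hη, p₁, hcore⟩ := core_all ε' hε'0 hε'1 D
  obtain ⟨C', hC'⟩ : ∃ C' : ℝ, C' = C ^ 3 * 5 ^ D := ⟨_, rfl⟩
  have hC'1 : 1 ≤ C' := by
    rw [hC']
    have a1 : (1 : ℝ) ≤ C ^ 3 := one_le_pow₀ hC
    have a2 : (1 : ℝ) ≤ 5 ^ D := one_le_pow₀ (by norm_num)
    nlinarith
  obtain ⟨p₂, hp₂⟩ := large (3 * C') (η / 16) (by positivity)
  obtain ⟨p₃, hp₃⟩ := large C (ε' / 4) (by positivity)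
  refine ⟨η / 32, by positivity, p₁ + p₂ + p₃, ?_⟩
  intro p _ hp χ hχ A B P Q hP hQ hPQ hPK hQK hA hB f g
  have hp1 : (1 : ℝ) ≤ p := by exact_mod_cast (Fact.out : p.Prime).one_lt.le
  have hp0 : (0 : ℝ) < p := by linarith
  have hp2 := hp₂ p (by omega)
  have hp3 := hp₃ p (by omega)
  have hP0 : (0 : ℝ) < P.card := lt_of_lt_of_le (by positivity) hP
  have hQ0 : (0 : ℝ) < Q.card := lt_of_lt_of_le (by positivity) hQ
  have hPne : P.Nonempty := by rw [← card_pos]; exact_mod_cast hP0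
  have hQne : Q.Nonempty := by rw [← card_pos]; exact_mod_cast hQ0
  obtain ⟨S, T, hT, hS, hcovP⟩ := hsys p P hPne (hPK.trans (mul_le_mul_of_nonneg_right (le_max_left _ _)
    hP0.le))
  obtain ⟨S', T', hT', hS', hcovQ⟩ := hsys p Q hQne (hQK.trans (mul_le_mul_of_nonneg_right (le_max_left _ _)
    hQ0.le))
  obtain ⟨G, hG, hcovG⟩ := inv_cover hC A P T S hPne hT hS hcovP
  obtain ⟨H, hH, hcovH⟩ := inv_cover hC B Q T' S' hQne hT' hS' hcovQ
  rw [← hC'] at hG hH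
  -- sizes of the systems
  have size : ∀ (P T : Finset (ZMod p)) (S : Sys p D), (T.card : ℝ) ≤ C → (∀ a ∈ P, ∃ t ∈ T, a - t ∈ S.S 1) →
      (P.card : ℝ) ≤ C * (S.S 1).card := by
    intro P T S hT hcov
    have h1 : P ⊆ T + S.S 1 := by
      intro a ha
      obtain ⟨t, ht, h⟩ := hcov a ha
      rw [Finset.mem_add]
      exact ⟨t, ht, a - t, h, by ring⟩
    have h2 : P.card ≤ T.card * (S.S 1).card := (card_le_card h1).trans Finset.card_add_le
    have h3 : (P.card : ℝ) ≤ T.card * (S.S 1).card := by exact_mod_cast h2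
    exact h3.trans (mul_le_mul_of_nonneg_right hT (Nat.cast_nonneg _))
  have s1 := size P T S hT hcovP
  have s2 := size Q T' S' hT' hcovQ
  have hCε : (p : ℝ) ^ (ε' / 4) * (p : ℝ) ^ (ε' / 4) = (p : ℝ) ^ (ε' / 2) := by
    rw [← Real.rpow_add hp0]
    congr 1
    ring
  have hC2 : C ≤ (p : ℝ) ^ (ε' / 2) := by
    rw [← hCε]
    nlinarith
  have hx : ∀ n m : ℝ, (p : ℝ) ^ ε ≤ n → n ≤ C * m → 0 ≤ m → (p : ℝ) ^ (ε' / 2) ≤ m := by
    intro n m h1 h2 h3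
    have e1 : (p : ℝ) ^ ε' ≤ (p : ℝ) ^ ε := Real.rpow_le_rpow_of_exponent_le hp1 hε'ε
    have e2 : (p : ℝ) ^ ε' = (p : ℝ) ^ (ε' / 2) * (p : ℝ) ^ (ε' / 2) := by
      rw [← Real.rpow_add hp0]
      congr 1
      ring
    have e3 : (p : ℝ) ^ (ε' / 2) * (p : ℝ) ^ (ε' / 2) ≤ (p : ℝ) ^ (ε' / 2) * m := by
      calc _ = (p : ℝ) ^ ε' := e2.symm
        _ ≤ C * m := by linarith
        _ ≤ _ := mul_le_mul_of_nonneg_right hC2 h3
    exact le_of_mul_le_mul_left e3 (by positivity)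
  have t1 := hx _ _ hP s1 (Nat.cast_nonneg _)
  have t2 := hx _ _ hQ s2 (Nat.cast_nonneg _)
  have t3 : (p : ℝ) ^ (1 / 2 + ε' / 2) ≤ ((S.S 1).card : ℝ) * (S'.S 1).card := by
    have e1 : (p : ℝ) ^ (1 / 2 + ε') ≤ (p : ℝ) ^ (1 / 2 + ε) :=
      Real.rpow_le_rpow_of_exponent_le hp1 (by linarith)
    have e2 : (p : ℝ) ^ (1 / 2 + ε') = (p : ℝ) ^ (ε' / 2) * (p : ℝ) ^ (1 / 2 + ε' / 2) := by
      rw [← Real.rpow_add hp0]
      congr 1
      ring
    have e3 : (P.card : ℝ) * Q.card ≤ (C * (S.S 1).card) * (C * (S'.S 1).card) :=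
      mul_le_mul s1 s2 hQ0.le (by positivity)
    have e4 : (C * (S.S 1).card) * (C * (S'.S 1).card) ≤ (p : ℝ) ^ (ε' / 2) *
        (((S.S 1).card : ℝ) * (S'.S 1).card) := by
      have a1 : C * C ≤ (p : ℝ) ^ (ε' / 2) := by
        rw [← hCε]
        exact mul_le_mul hp3 hp3 (by linarith) (by positivity)
      calc (C * (S.S 1).card) * (C * (S'.S 1).card) = (C * C) * (((S.S 1).card : ℝ) * (S'.S 1).card) := by ring
        _ ≤ _ := mul_le_mul_of_nonneg_right a1 (by positivity)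
    have e5 : (p : ℝ) ^ (ε' / 2) * (p : ℝ) ^ (1 / 2 + ε' / 2) ≤ (p : ℝ) ^ (ε' / 2) *
        (((S.S 1).card : ℝ) * (S'.S 1).card) := by linarith
    exact le_of_mul_le_mul_left e5 (by positivity)
  -- the pieces
  choose! u hu using hcovG
  choose! w hw using hcovH
  obtain ⟨Θ, hΘ⟩ : ∃ Θ : ℝ, Θ = 3 * (p : ℝ) ^ (-(η / 4)) * (Real.sqrt (S.S 1).card * Real.sqrt (S'.S 1).card) :=
    ⟨_, rfl⟩
  have hΘ0 : 0 ≤ Θ := by rw [hΘ]; positivity
  have hmain := pieces A B G H u w (fun a ha => (hu a ha).1) (fun b hb => (hw b hb).1) (fun a b => χ (a + b))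
    Θ hΘ0 f g (by
      intro x _ y _
      rw [hΘ]
      refine hcore p (by omega) χ hχ S S' t1 t2 t3 x y _ _ ?_ ?_ f g
      · intro a ha
        rw [mem_filter] at ha
        rw [← ha.2]
        exact (hu a ha.1).2
      · intro b hb
        rw [mem_filter] at hb
        rw [← hb.2]
        exact (hw b hb.1).2)
  refine hmain.trans ?_
  rw [← mul_assoc ((p : ℝ) ^ (-(2 * (η / 32))))]
  apply mul_le_mul_of_nonneg_right _ (by positivity)
  -- numerical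
  have n1 : Real.sqrt (S.S 1).card * Real.sqrt G.card ≤ Real.sqrt (C' * (p : ℝ) ^ (η / 32)) * Real.sqrt A.card := by
    rw [← Real.sqrt_mul (Nat.cast_nonneg _), ← Real.sqrt_mul (by positivity)]
    apply Real.sqrt_le_sqrt
    calc ((S.S 1).card : ℝ) * G.card = G.card * (S.S 1).card := by ring
      _ ≤ C' * (A + P).card := hG
      _ ≤ C' * ((p : ℝ) ^ (η / 32) * A.card) := mul_le_mul_of_nonneg_left hA (by linarith)
      _ = _ := by ring
  have n2 : Real.sqrt (S'.S 1).card * Real.sqrt H.card ≤ Real.sqrt (C' * (p : ℝ) ^ (η / 32)) * Real.sqrt B.card := by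
    rw [← Real.sqrt_mul (Nat.cast_nonneg _), ← Real.sqrt_mul (by positivity)]
    apply Real.sqrt_le_sqrt
    calc ((S'.S 1).card : ℝ) * H.card = H.card * (S'.S 1).card := by ring
      _ ≤ C' * (B + Q).card := hH
      _ ≤ C' * ((p : ℝ) ^ (η / 32) * B.card) := mul_le_mul_of_nonneg_left hB (by linarith)
      _ = _ := by ring
  have n3 : (Real.sqrt (C' * (p : ℝ) ^ (η / 32)) * Real.sqrt A.card) *
      (Real.sqrt (C' * (p : ℝ) ^ (η / 32)) * Real.sqrt B.card) =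
      C' * (p : ℝ) ^ (η / 32) * (Real.sqrt A.card * Real.sqrt B.card) := by
    have := Real.mul_self_sqrt (show 0 ≤ C' * (p : ℝ) ^ (η / 32) by positivity)
    calc _ = (Real.sqrt (C' * (p : ℝ) ^ (η / 32)) * Real.sqrt (C' * (p : ℝ) ^ (η / 32))) *
          (Real.sqrt A.card * Real.sqrt B.card) := by ring
      _ = _ := by rw [this]
  have n4 : 3 * (p : ℝ) ^ (-(η / 4)) * (C' * (p : ℝ) ^ (η / 32)) ≤ (p : ℝ) ^ (-(2 * (η / 32))) := by
    calc 3 * (p : ℝ) ^ (-(η / 4)) * (C' * (p : ℝ) ^ (η / 32)) =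
        (3 * C') * ((p : ℝ) ^ (-(η / 4)) * (p : ℝ) ^ (η / 32)) := by ring
      _ ≤ (p : ℝ) ^ (η / 16) * ((p : ℝ) ^ (-(η / 4)) * (p : ℝ) ^ (η / 32)) :=
          mul_le_mul_of_nonneg_right hp2 (by positivity)
      _ = (p : ℝ) ^ (η / 16 + (-(η / 4) + η / 32)) := by
          rw [← Real.rpow_add hp0, ← Real.rpow_add hp0]
      _ ≤ _ := Real.rpow_le_rpow_of_exponent_le hp1 (by linarith)
  calc Θ * (Real.sqrt G.card * Real.sqrt H.card)
      = 3 * (p : ℝ) ^ (-(η / 4)) * ((Real.sqrt (S.S 1).card * Real.sqrt G.card) *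
          (Real.sqrt (S'.S 1).card * Real.sqrt H.card)) := by rw [hΘ]; ring
    _ ≤ 3 * (p : ℝ) ^ (-(η / 4)) * ((Real.sqrt (C' * (p : ℝ) ^ (η / 32)) * Real.sqrt A.card) *
        (Real.sqrt (C' * (p : ℝ) ^ (η / 32)) * Real.sqrt B.card)) := by
          apply mul_le_mul_of_nonneg_left _ (by positivity)
          exact mul_le_mul n1 n2 (by positivity) (by positivity)
    _ = (3 * (p : ℝ) ^ (-(η / 4)) * (C' * (p : ℝ) ^ (η / 32))) * (Real.sqrt A.card * Real.sqrt B.card) := by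
          rw [n3]; ring
    _ ≤ _ := mul_le_mul_of_nonneg_right n4 (by positivity)

end Pool.Agent.N397.PQ
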